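import Pool.Agent.W382.FB.NumA

/-!
# The second linear programming bound is larger than `1/2` at `1/2 - 1/π`
-/

set_option autoImplicit false
set_option linter.unusedSectionVars false

open Real Set

namespace Pool.Agent.W382.FB.Num

open Pool.Agent.W483.FB

lemma log_bd (x z lo hi : ℝ) (k : ℕ) (hz0 : 0 ≤ z) (hz1 : z < 1)
    (hx : x = 2 ^ k * ((1 + z) / (1 - z)))
    (hlo : lo ≤ k * 0.6931471803 +
      2 * (z + z ^ 3 / 3 + z ^ 5 / 5 + z ^ 7 / 7 + z ^ 9 / 9 + z ^ 11 / 11))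
    (hhi : k * 0.6931471808 +
      2 * (z + z ^ 3 / 3 + z ^ 5 / 5 + z ^ 7 / 7 + z ^ 9 / 9 + z ^ 11 / 11 +
        z ^ 13 / (1 - z ^ 2)) ≤ hi) : lo ≤ log x ∧ log x ≤ hi := by
  have h1 : 0 < (1 + z) / (1 - z) := div_pos (by linarith) (by linarith)
  have h2 : log x = k * log 2 + log ((1 + z) / (1 - z)) := by
    rw [hx, log_mul (by positivity) h1.ne', log_pow]
  have h3 := sum_range_le_log_div hz0 hz1 6
  have h4 := log_div_le_sum_range_add hz0 hz1 6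
  simp only [Finset.sum_range_succ, Finset.sum_range_zero] at h3 h4
  norm_num at h3 h4
  have h5 := log_two_gt_d9
  have h6 := log_two_lt_d9
  have hk : (0 : ℝ) ≤ k := Nat.cast_nonneg k
  rw [h2]
  constructor
  · nlinarith
  · nlinarith

/-- rational lower lines for `h (u ^ 2)` -/
lemma S_line {ρ κ γ l1 l2 l3 u : ℝ} (hρ : 1 < ρ) (h1 : l1 ≤ log ρ) (h2 : log ρ ≤ l2)
    (h3 : l3 ≤ log (ρ + ρ⁻¹)) (hκ : κ ≤ 2 * l1 / (ρ - ρ⁻¹))
    (hγ : γ ≤ l3 - l2 * ((ρ + ρ⁻¹) / (ρ - ρ⁻¹))) (hu0 : 0 < u) (hu1 : u ≤ 1) :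
    κ * u + γ ≤ h (u ^ 2) * log 2 := by
  have hρ0 : 0 < ρ := by linarith
  have hρi : ρ⁻¹ < ρ := (inv_lt_one_of_one_lt₀ hρ).trans hρ
  refine le_trans ?_ (psi_ge hρ hu0 hu1)
  have hd : 0 < ρ - ρ⁻¹ := by linarith
  have e1 : κ ≤ 2 * log ρ / (ρ - ρ⁻¹) :=
    hκ.trans (div_le_div_of_nonneg_right (by linarith) hd.le)
  have e2 : log ρ * ((ρ + ρ⁻¹) / (ρ - ρ⁻¹)) ≤ l2 * ((ρ + ρ⁻¹) / (ρ - ρ⁻¹)) :=
    mul_le_mul_of_nonneg_right h2 (by positivity)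
  have e3 := mul_le_mul_of_nonneg_right e1 hu0.le
  linarith

/-- rational upper lines for `h x` -/
lemma P_line {ρ A β l1 l3 x : ℝ} (hρ : 1 < ρ) (h1 : l1 ≤ log ρ)
    (h3 : log (ρ + ρ⁻¹) ≤ l3) (hA : l3 - l1 * ((ρ - ρ⁻¹) / (ρ + ρ⁻¹)) / 2 ≤ A)
    (hβ : β ≤ l1 / (2 * ((ρ - ρ⁻¹) / (ρ + ρ⁻¹)))) (hx0 : 0 < x) (hx1 : x ≤ 1) :
    h x * log 2 ≤ A - β * (1 - x) := by
  have hρ0 : 0 < ρ := by linarith
  have hρi : ρ⁻¹ < ρ := (inv_lt_one_of_one_lt₀ hρ).trans hρ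
  refine (phi_le hρ hx0 hx1).trans ?_
  have hd : 0 < ρ - ρ⁻¹ := by linarith
  have hT : 0 < (ρ - ρ⁻¹) / (ρ + ρ⁻¹) := by positivity
  have e1 : β ≤ log ρ / (2 * ((ρ - ρ⁻¹) / (ρ + ρ⁻¹))) :=
    hβ.trans (div_le_div_of_nonneg_right h1 (by positivity))
  have e2 : l1 * ((ρ - ρ⁻¹) / (ρ + ρ⁻¹)) ≤ log ρ * ((ρ - ρ⁻¹) / (ρ + ρ⁻¹)) :=
    mul_le_mul_of_nonneg_right h1 hT.le
  have e3 := mul_le_mul_of_nonneg_right e1 (show (0 : ℝ) ≤ 1 - x by linarith)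
  linarith

lemma lg0 : (20273 / 50000 : ℝ) ≤ log (3 / 2) ∧ log (3 / 2) ≤ 40547 / 100000 :=
  log_bd _ (1 / 5) _ _ 0 (by norm_num) (by norm_num) (by norm_num) (by norm_num) (by norm_num)

lemma lg1 : (34657 / 50000 : ℝ) ≤ log (2) ∧ log (2) ≤ 17329 / 25000 :=
  log_bd _ (0) _ _ 1 (by norm_num) (by norm_num) (by norm_num) (by norm_num) (by norm_num)

lemma lg2 : (38659 / 50000 : ℝ) ≤ log (13 / 6) ∧ log (13 / 6) ≤ 1933 / 2500 :=
  log_bd _ (1 / 25) _ _ 1 (by norm_num) (by norm_num) (by norm_num) (by norm_num) (by norm_num)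

lemma lg3 : (20273 / 25000 : ℝ) ≤ log (9 / 4) ∧ log (9 / 4) ≤ 40547 / 50000 :=
  log_bd _ (1 / 17) _ _ 1 (by norm_num) (by norm_num) (by norm_num) (by norm_num) (by norm_num)

lemma lg4 : (43773 / 50000 : ℝ) ≤ log (12 / 5) ∧ log (12 / 5) ≤ 21887 / 25000 :=
  log_bd _ (1 / 11) _ _ 1 (by norm_num) (by norm_num) (by norm_num) (by norm_num) (by norm_num)

lemma lg5 : (22907 / 25000 : ℝ) ≤ log (5 / 2) ∧ log (5 / 2) ≤ 9163 / 10000 :=
  log_bd _ (1 / 9) _ _ 1 (by norm_num) (by norm_num) (by norm_num) (by norm_num) (by norm_num)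

lemma lg6 : (49041 / 50000 : ℝ) ≤ log (8 / 3) ∧ log (8 / 3) ≤ 24521 / 25000 :=
  log_bd _ (1 / 7) _ _ 1 (by norm_num) (by norm_num) (by norm_num) (by norm_num) (by norm_num)

lemma lg7 : (49559 / 50000 : ℝ) ≤ log (97 / 36) ∧ log (97 / 36) ≤ 1239 / 1250 :=
  log_bd _ (25 / 169) _ _ 1 (by norm_num) (by norm_num) (by norm_num) (by norm_num) (by norm_num)

lemma lg8 : (20711 / 20000 : ℝ) ≤ log (169 / 60) ∧ log (169 / 60) ≤ 25889 / 25000 :=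
  log_bd _ (49 / 289) _ _ 1 (by norm_num) (by norm_num) (by norm_num) (by norm_num) (by norm_num)

lemma lg9 : (10647 / 10000 : ℝ) ≤ log (29 / 10) ∧ log (29 / 10) ≤ 13309 / 12500 :=
  log_bd _ (9 / 49) _ _ 1 (by norm_num) (by norm_num) (by norm_num) (by norm_num) (by norm_num)

lemma lg10 : (5493 / 5000 : ℝ) ≤ log (3) ∧ log (3) ≤ 54931 / 50000 :=
  log_bd _ (1 / 5) _ _ 1 (by norm_num) (by norm_num) (by norm_num) (by norm_num) (by norm_num)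

lemma lg11 : (2781 / 2500 : ℝ) ≤ log (73 / 24) ∧ log (73 / 24) ≤ 111241 / 100000 :=
  log_bd _ (25 / 121) _ _ 1 (by norm_num) (by norm_num) (by norm_num) (by norm_num) (by norm_num)

lemma lg12 : (30099 / 25000 : ℝ) ≤ log (10 / 3) ∧ log (10 / 3) ≤ 60199 / 50000 :=
  log_bd _ (1 / 4) _ _ 1 (by norm_num) (by norm_num) (by norm_num) (by norm_num) (by norm_num)

lemma lg13 : (138629 / 100000 : ℝ) ≤ log (4) ∧ log (4) ≤ 13863 / 10000 :=
  log_bd _ (0) _ _ 2 (by norm_num) (by norm_num) (by norm_num) (by norm_num) (by norm_num)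

lemma lg14 : (144691 / 100000 : ℝ) ≤ log (17 / 4) ∧ log (17 / 4) ≤ 144693 / 100000 :=
  log_bd _ (1 / 33) _ _ 2 (by norm_num) (by norm_num) (by norm_num) (by norm_num) (by norm_num)

lemma lg15 : (85237 / 50000 : ℝ) ≤ log (11 / 2) ∧ log (11 / 2) ≤ 42619 / 25000 :=
  log_bd _ (3 / 19) _ _ 2 (by norm_num) (by norm_num) (by norm_num) (by norm_num) (by norm_num)

lemma lg16 : (86863 / 50000 : ℝ) ≤ log (125 / 22) ∧ log (125 / 22) ≤ 5429 / 3125 :=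
  log_bd _ (37 / 213) _ _ 2 (by norm_num) (by norm_num) (by norm_num) (by norm_num) (by norm_num)

lemma lg17 : (19459 / 10000 : ℝ) ≤ log (7) ∧ log (7) ≤ 6081 / 3125 :=
  log_bd _ (3 / 11) _ _ 2 (by norm_num) (by norm_num) (by norm_num) (by norm_num) (by norm_num)

lemma lg18 : (19661 / 10000 : ℝ) ≤ log (50 / 7) ∧ log (50 / 7) ≤ 49153 / 25000 :=
  log_bd _ (11 / 39) _ _ 2 (by norm_num) (by norm_num) (by norm_num) (by norm_num) (by norm_num)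

lemma lg19 : (107003 / 50000 : ℝ) ≤ log (17 / 2) ∧ log (17 / 2) ≤ 26751 / 12500 :=
  log_bd _ (1 / 33) _ _ 3 (by norm_num) (by norm_num) (by norm_num) (by norm_num) (by norm_num)

lemma lg20 : (10769 / 5000 : ℝ) ≤ log (293 / 34) ∧ log (293 / 34) ≤ 107691 / 50000 :=
  log_bd _ (21 / 565) _ _ 3 (by norm_num) (by norm_num) (by norm_num) (by norm_num) (by norm_num)

lemma lg21 : (239789 / 100000 : ℝ) ≤ log (11) ∧ log (11) ≤ 23979 / 10000 :=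
  log_bd _ (3 / 19) _ _ 3 (by norm_num) (by norm_num) (by norm_num) (by norm_num) (by norm_num)

lemma lg22 : (60153 / 25000 : ℝ) ≤ log (122 / 11) ∧ log (122 / 11) ≤ 240613 / 100000 :=
  log_bd _ (17 / 105) _ _ 3 (by norm_num) (by norm_num) (by norm_num) (by norm_num) (by norm_num)

lemma lg23 : (7083 / 2500 : ℝ) ≤ log (17) ∧ log (17) ≤ 141661 / 50000 :=
  log_bd _ (1 / 33) _ _ 4 (by norm_num) (by norm_num) (by norm_num) (by norm_num) (by norm_num)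

lemma lg24 : (141833 / 50000 : ℝ) ≤ log (290 / 17) ∧ log (290 / 17) ≤ 70917 / 25000 :=
  log_bd _ (9 / 281) _ _ 4 (by norm_num) (by norm_num) (by norm_num) (by norm_num) (by norm_num)

lemma iv0 {a u x : ℝ} (ha : 0.6366 ≤ a) (hu0 : 0 < u) (hu1 : u ≤ 1) (hx0 : 0 < x) (hx1 : x ≤ 1)
    (hx : 1 - x = (1 + u) * (a - u)) (hl : 0 ≤ u) (hr : u ≤ 3 / 20) :
    h x * log 2 - h (u ^ 2) * log 2 ≤ 0.3464 := by
  have h1 := S_line (ρ := 17) (κ := 33447 / 100000) (γ := -203 / 12500) (by norm_num) lg23.1 lg23.2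
    (le_of_le_of_eq lg24.1 (by norm_num)) (by norm_num) (by norm_num) hu0 hu1
  have h2 := P_line (ρ := 8 / 3) (A := 74293 / 100000) (β := 6509 / 10000) (by norm_num) lg6.1
    (le_of_eq_of_le (by norm_num) lg11.2) (by norm_num) (by norm_num) hx0 hx1
  have h3 : (1 + u) * (0.6366 - u) ≤ 1 - x := by
    rw [hx]
    exact mul_le_mul_of_nonneg_left (by linarith) (by linarith)
  nlinarith [mul_nonneg (sub_nonneg.2 hl) (sub_nonneg.2 hr)]

lemma iv1 {a u x : ℝ} (ha : 0.6366 ≤ a) (hu0 : 0 < u) (hu1 : u ≤ 1) (hx0 : 0 < x) (hx1 : x ≤ 1)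
    (hx : 1 - x = (1 + u) * (a - u)) (hl : 3 / 20 ≤ u) (hr : u ≤ 1 / 5) :
    h x * log 2 - h (u ^ 2) * log 2 ≤ 0.3464 := by
  have h1 := S_line (ρ := 11) (κ := 43961 / 100000) (γ := -127 / 4000) (by norm_num) lg21.1 lg21.2
    (le_of_le_of_eq lg22.1 (by norm_num)) (by norm_num) (by norm_num) hu0 hu1
  have h2 := P_line (ρ := 5 / 2) (A := 73297 / 100000) (β := 31633 / 50000) (by norm_num) lg5.1
    (le_of_eq_of_le (by norm_num) lg9.2) (by norm_num) (by norm_num) hx0 hx1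
  have h3 : (1 + u) * (0.6366 - u) ≤ 1 - x := by
    rw [hx]
    exact mul_le_mul_of_nonneg_left (by linarith) (by linarith)
  nlinarith [mul_nonneg (sub_nonneg.2 hl) (sub_nonneg.2 hr)]

lemma iv2 {a u x : ℝ} (ha : 0.6366 ≤ a) (hu0 : 0 < u) (hu1 : u ≤ 1) (hx0 : 0 < x) (hx1 : x ≤ 1)
    (hx : 1 - x = (1 + u) * (a - u)) (hl : 1 / 5 ≤ u) (hr : u ≤ 13 / 50) :
    h x * log 2 - h (u ^ 2) * log 2 ≤ 0.3464 := by
  have h1 := S_line (ρ := 17 / 2) (κ := 51061 / 100000) (γ := -1159 / 25000) (by norm_num) lg19.1 lg19.2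
    (le_of_le_of_eq lg20.1 (by norm_num)) (by norm_num) (by norm_num) hu0 hu1
  have h2 := P_line (ρ := 12 / 5) (A := 36367 / 50000) (β := 12433 / 20000) (by norm_num) lg4.1
    (le_of_eq_of_le (by norm_num) lg8.2) (by norm_num) (by norm_num) hx0 hx1
  have h3 : (1 + u) * (0.6366 - u) ≤ 1 - x := by
    rw [hx]
    exact mul_le_mul_of_nonneg_left (by linarith) (by linarith)
  nlinarith [mul_nonneg (sub_nonneg.2 hl) (sub_nonneg.2 hr)]

lemma iv3 {a u x : ℝ} (ha : 0.6366 ≤ a) (hu0 : 0 < u) (hu1 : u ≤ 1) (hx0 : 0 < x) (hx1 : x ≤ 1)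
    (hx : 1 - x = (1 + u) * (a - u)) (hl : 13 / 50 ≤ u) (hr : u ≤ 8 / 25) :
    h x * log 2 - h (u ^ 2) * log 2 ≤ 0.3464 := by
  have h1 := S_line (ρ := 7) (κ := 11351 / 20000) (γ := -609 / 10000) (by norm_num) lg17.1 lg17.2
    (le_of_le_of_eq lg18.1 (by norm_num)) (by norm_num) (by norm_num) hu0 hu1
  have h2 := P_line (ρ := 9 / 4) (A := 1439 / 2000) (β := 60507 / 100000) (by norm_num) lg3.1
    (le_of_eq_of_le (by norm_num) lg7.2) (by norm_num) (by norm_num) hx0 hx1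
  have h3 : (1 + u) * (0.6366 - u) ≤ 1 - x := by
    rw [hx]
    exact mul_le_mul_of_nonneg_left (by linarith) (by linarith)
  nlinarith [mul_nonneg (sub_nonneg.2 hl) (sub_nonneg.2 hr)]

lemma iv4 {a u x : ℝ} (ha : 0.6366 ≤ a) (hu0 : 0 < u) (hu1 : u ≤ 1) (hx0 : 0 < x) (hx1 : x ≤ 1)
    (hx : 1 - x = (1 + u) * (a - u)) (hl : 8 / 25 ≤ u) (hr : u ≤ 2 / 5) :
    h x * log 2 - h (u ^ 2) * log 2 ≤ 0.3464 := by
  have h1 := S_line (ρ := 11 / 2) (κ := 64109 / 100000) (γ := -8407 / 100000) (by norm_num) lg15.1 lg15.2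
    (le_of_le_of_eq lg16.1 (by norm_num)) (by norm_num) (by norm_num) hu0 hu1
  have h2 := P_line (ρ := 2) (A := 17709 / 25000) (β := 57761 / 100000) (by norm_num) lg1.1
    (le_of_eq_of_le (by norm_num) lg5.2) (by norm_num) (by norm_num) hx0 hx1
  have h3 : (1 + u) * (0.6366 - u) ≤ 1 - x := by
    rw [hx]
    exact mul_le_mul_of_nonneg_left (by linarith) (by linarith)
  nlinarith [mul_nonneg (sub_nonneg.2 hl) (sub_nonneg.2 hr)]

lemma iv5 {a u x : ℝ} (ha : 0.6366 ≤ a) (hu0 : 0 < u) (hu1 : u ≤ 1) (hx0 : 0 < x) (hx1 : x ≤ 1)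
    (hx : 1 - x = (1 + u) * (a - u)) (hl : 2 / 5 ≤ u) (hr : u ≤ 51 / 100) :
    h x * log 2 - h (u ^ 2) * log 2 ≤ 0.3464 := by
  have h1 := S_line (ρ := 4) (κ := 14787 / 20000) (γ := -12423 / 100000) (by norm_num) lg13.1 lg13.2
    (le_of_le_of_eq lg14.1 (by norm_num)) (by norm_num) (by norm_num) hu0 hu1
  have h2 := P_line (ρ := 2) (A := 17709 / 25000) (β := 57761 / 100000) (by norm_num) lg1.1
    (le_of_eq_of_le (by norm_num) lg5.2) (by norm_num) (by norm_num) hx0 hx1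
  have h3 : (1 + u) * (0.6366 - u) ≤ 1 - x := by
    rw [hx]
    exact mul_le_mul_of_nonneg_left (by linarith) (by linarith)
  nlinarith [mul_nonneg (sub_nonneg.2 hl) (sub_nonneg.2 hr)]

lemma iv6 {a u x : ℝ} (ha : 0.6366 ≤ a) (hu0 : 0 < u) (hu1 : u ≤ 1) (hx0 : 0 < x) (hx1 : x ≤ 1)
    (hx : 1 - x = (1 + u) * (a - u)) (hl : 51 / 100 ≤ u) (hr : u ≤ 6367 / 10000) :
    h x * log 2 - h (u ^ 2) * log 2 ≤ 0.3464 := by
  have h1 := S_line (ρ := 3) (κ := 16479 / 20000) (γ := -4233 / 25000) (by norm_num) lg10.1 lg10.2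
    (le_of_le_of_eq lg12.1 (by norm_num)) (by norm_num) (by norm_num) hu0 hu1
  have h2 := P_line (ρ := 3 / 2) (A := 69523 / 100000) (β := 52709 / 100000) (by norm_num) lg0.1
    (le_of_eq_of_le (by norm_num) lg2.2) (by norm_num) (by norm_num) hx0 hx1
  have h3 : (1 + u) * (0.6366 - u) ≤ 1 - x := by
    rw [hx]
    exact mul_le_mul_of_nonneg_left (by linarith) (by linarith)
  nlinarith [mul_nonneg (sub_nonneg.2 hl) (sub_nonneg.2 hr)]

lemma all {a u x : ℝ} (ha : 0.6366 ≤ a) (ha' : a ≤ 0.6367) (hu0 : 0 < u) (hua : u ≤ a)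
    (hx0 : 0 < x) (hx1 : x ≤ 1) (hx : 1 - x = (1 + u) * (a - u)) :
    h x * log 2 - h (u ^ 2) * log 2 ≤ 0.3464 := by
  have hu1 : u ≤ 1 := by linarith
  by_cases h0 : u ≤ 15 / 100
  · exact iv0 ha hu0 hu1 hx0 hx1 hx hu0.le (h0.trans (by norm_num))
  by_cases h1 : u ≤ 2 / 10
  · exact iv1 ha hu0 hu1 hx0 hx1 hx (by linarith) (h1.trans (by norm_num))
  by_cases h2 : u ≤ 26 / 100
  · exact iv2 ha hu0 hu1 hx0 hx1 hx (by linarith) (h2.trans (by norm_num))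
  by_cases h3 : u ≤ 32 / 100
  · exact iv3 ha hu0 hu1 hx0 hx1 hx (by linarith) (h3.trans (by norm_num))
  by_cases h4 : u ≤ 4 / 10
  · exact iv4 ha hu0 hu1 hx0 hx1 hx (by linarith) (h4.trans (by norm_num))
  by_cases h5 : u ≤ 51 / 100
  · exact iv5 ha hu0 hu1 hx0 hx1 hx (by linarith) (h5.trans (by norm_num))
  exact iv6 ha hu0 hu1 hx0 hx1 hx (by linarith) (by linarith)

theorem t_num : S_num := by
  unfold S_num
  have hpi := pi_pos
  have hpi1 := pi_gt_d4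
  have hpi2 := pi_lt_d4
  set a : ℝ := 2 / π with ha_def
  have ha : 0.6366 ≤ a := by
    rw [ha_def, le_div_iff₀ hpi]
    nlinarith
  have ha' : a ≤ 0.6367 := by
    rw [ha_def, div_le_iff₀ hpi]
    nlinarith
  have hd : (1 / 2 - 1 / π : ℝ) = (1 - a) / 2 := by
    rw [ha_def]
    ring
  have hL0 := log_two_gt_d9
  have hL : 0 < log 2 := by linarith
  have hkey : ∀ u, 0 < u → u ≤ a →
      1 - 0.3464 / log 2 ≤ 1 + h (u ^ 2) - h (u ^ 2 + 2 * ((1 - a) / 2) * u + 2 * ((1 - a) / 2)) := by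
    intro u hu0 hua
    have h1 := all (x := u ^ 2 + 2 * ((1 - a) / 2) * u + 2 * ((1 - a) / 2)) ha ha' hu0 hua
      (by nlinarith) (by nlinarith) (by ring)
    have h2 : h (u ^ 2 + 2 * ((1 - a) / 2) * u + 2 * ((1 - a) / 2)) - h (u ^ 2) ≤
        0.3464 / log 2 := by
      rw [le_div_iff₀ hL, sub_mul]
      exact h1
    linarith
  have hlt : (1 / 2 : ℝ) < 1 - 0.3464 / log 2 := by
    have h1 : 0.3464 / log 2 < 1 / 2 := by
      rw [div_lt_iff₀ hL]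
      linarith
    linarith
  refine lt_of_lt_of_le hlt ?_
  unfold B
  rw [hd]
  refine le_csInf ?_ ?_
  · exact ⟨_, ⟨a / 2, ⟨by linarith, by linarith⟩, rfl⟩⟩
  · rintro _ ⟨u, ⟨hu0, hu1⟩, rfl⟩
    exact hkey u hu0 (by linarith)

end Pool.Agent.W382.FB.Num
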