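import Pool.Agent.W483.FB.Stm2

/-!
# The entropy function of McEliece, Rodemich, Rumsey and Welch in hyperbolic coordinates
-/

set_option autoImplicit false
set_option linter.unusedSectionVars false

open Real Set

namespace Pool.Agent.W382.FB.Num

/-- `sinh x / x` is increasing. -/
lemma sinh_slope {x y : ℝ} (hx : 0 ≤ x) (hxy : x ≤ y) : sinh x * y ≤ sinh y * x := by
  have hconv : ConvexOn ℝ (Ici (0 : ℝ)) sinh := by
    apply MonotoneOn.convexOn_of_deriv (convex_Ici 0) continuous_sinh.continuousOn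
      differentiable_sinh.differentiableOn
    rw [interior_Ici]
    intro a ha b hb hab
    rw [Real.deriv_sinh, cosh_le_cosh, abs_of_pos ha, abs_of_pos hb]
    exact hab
  rcases eq_or_lt_of_le hx with rfl | hx'
  · simp
  have hy : 0 < y := lt_of_lt_of_le hx' hxy
  have h1 : x / y ≤ 1 := (div_le_one hy).2 hxy
  have h2 := hconv.2 (mem_Ici.2 (le_refl (0 : ℝ))) (mem_Ici.2 hy.le)
    (sub_nonneg.2 h1) (show (0 : ℝ) ≤ x / y by positivity) (by ring)
  simp only [smul_eq_mul, mul_zero, zero_add, sinh_zero] at h2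
  have h3 : x / y * y = x := by field_simp
  rw [h3] at h2
  calc sinh x * y ≤ (x / y * sinh y) * y := mul_le_mul_of_nonneg_right h2 hy.le
    _ = sinh y * x := by field_simp

/-- `x / tanh x` is increasing. -/
lemma tanh_slope {x y : ℝ} (hx : 0 ≤ x) (hxy : x ≤ y) :
    x * (sinh y * cosh x) ≤ y * (sinh x * cosh y) := by
  have h1 := sinh_slope (x := y - x) (y := x + y) (by linarith) (by linarith)
  rw [sinh_add, sinh_sub] at h1
  nlinarith

lemma min_of_deriv {D D' : ℝ → ℝ} (hD : ∀ s, HasDerivAt D (D' s) s) {s0 : ℝ} (h0 : 0 ≤ s0)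
    (h1 : ∀ s, 0 ≤ s → s ≤ s0 → D' s ≤ 0) (h2 : ∀ s, s0 ≤ s → 0 ≤ D' s) {s : ℝ} (hs : 0 ≤ s) :
    D s0 ≤ D s := by
  have hdiff : Differentiable ℝ D := fun x => (hD x).differentiableAt
  have hcont : Continuous D := hdiff.continuous
  rcases le_total s s0 with h | h
  · have ha : AntitoneOn D (Icc 0 s0) := by
      apply antitoneOn_of_deriv_nonpos (convex_Icc 0 s0) hcont.continuousOn
        hdiff.differentiableOn
      intro x hx
      rw [interior_Icc] at hx
      rw [(hD x).deriv]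
      exact h1 x hx.1.le hx.2.le
    exact ha ⟨hs, h⟩ ⟨h0, le_rfl⟩ h
  · have ha : MonotoneOn D (Ici s0) := by
      apply monotoneOn_of_deriv_nonneg (convex_Ici s0) hcont.continuousOn
        hdiff.differentiableOn
      intro x hx
      rw [interior_Ici] at hx
      rw [(hD x).deriv]
      exact h2 x (le_of_lt hx)
    exact ha (mem_Ici.2 le_rfl) (mem_Ici.2 h) h

/-- the entropy in the hyperbolic coordinate -/
noncomputable def Es (s : ℝ) : ℝ := log (2 * cosh s) - s * (sinh s / cosh s)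

lemma hasDerivAt_th (s : ℝ) : HasDerivAt (fun s => sinh s / cosh s) (1 / cosh s ^ 2) s := by
  have hc : cosh s ≠ 0 := (cosh_pos s).ne'
  have h1 := (hasDerivAt_sinh s).div (hasDerivAt_cosh s) hc
  refine h1.congr_deriv ?_
  have h2 := cosh_sq s
  congr 1
  nlinarith

lemma hasDerivAt_sech (s : ℝ) : HasDerivAt (fun s => 1 / cosh s) (-sinh s / cosh s ^ 2) s := by
  have hc : cosh s ≠ 0 := (cosh_pos s).ne'
  have h1 := (hasDerivAt_const s (1 : ℝ)).div (hasDerivAt_cosh s) hc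
  exact h1.congr_deriv (by ring)

lemma hasDerivAt_Es (s : ℝ) : HasDerivAt Es (-(s / cosh s ^ 2)) s := by
  have hc : cosh s ≠ 0 := (cosh_pos s).ne'
  have h1 : HasDerivAt (fun s => log (2 * cosh s)) (2 * sinh s / (2 * cosh s)) s :=
    ((hasDerivAt_cosh s).const_mul 2).log (by positivity)
  have h2 : HasDerivAt (fun s => s * (sinh s / cosh s))
      (1 * (sinh s / cosh s) + s * (1 / cosh s ^ 2)) s := (hasDerivAt_id s).mul (hasDerivAt_th s)
  refine (h1.sub h2).congr_deriv ?_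
  field_simp
  ring

/-- the tangent lines of the entropy as a function of `1 / cosh s` -/
lemma T1 {s0 s : ℝ} (h0 : 0 < s0) (hs : 0 ≤ s) :
    s0 / sinh s0 * (1 / cosh s) + (log (2 * cosh s0) - s0 * (cosh s0 / sinh s0)) ≤ Es s := by
  have hS : 0 < sinh s0 := sinh_pos_iff.2 h0
  have hC : 0 < cosh s0 := cosh_pos s0
  have hD : ∀ s, HasDerivAt (fun s => Es s - s0 / sinh s0 * (1 / cosh s))
      (-(s / cosh s ^ 2) + s0 / sinh s0 * (sinh s / cosh s ^ 2)) s := by
    intro s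
    have h2 := (hasDerivAt_Es s).sub ((hasDerivAt_sech s).const_mul (s0 / sinh s0))
    exact h2.congr_deriv (by ring)
  have hmin := min_of_deriv hD h0.le (fun s hs hs' => by
    have hc : 0 < cosh s := cosh_pos s
    have h1 := sinh_slope hs hs'
    have h2 : -(s / cosh s ^ 2) + s0 / sinh s0 * (sinh s / cosh s ^ 2) =
        (sinh s * s0 - sinh s0 * s) / (sinh s0 * cosh s ^ 2) := by
      field_simp
      ring
    rw [h2]
    exact div_nonpos_of_nonpos_of_nonneg (by linarith) (by positivity)) (fun s hs => by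
    have hc : 0 < cosh s := cosh_pos s
    have h1 := sinh_slope h0.le hs
    have h2 : -(s / cosh s ^ 2) + s0 / sinh s0 * (sinh s / cosh s ^ 2) =
        (sinh s * s0 - sinh s0 * s) / (sinh s0 * cosh s ^ 2) := by
      field_simp
      ring
    rw [h2]
    exact div_nonneg (by linarith) (by positivity)) hs
  have h3 : Es s0 - s0 / sinh s0 * (1 / cosh s0) =
      log (2 * cosh s0) - s0 * (cosh s0 / sinh s0) := by
    unfold Es
    have h4 := cosh_sq s0
    field_simp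
    linear_combination s0 * h4
  have h5 : Es s0 - s0 / sinh s0 * (1 / cosh s0) ≤ Es s - s0 / sinh s0 * (1 / cosh s) := hmin
  rw [h3] at h5
  linarith

/-- the tangent lines of the entropy as a function of `tanh s ^ 2` -/
lemma T2 {s1 s : ℝ} (h1 : 0 < s1) (hs : 0 ≤ s) :
    Es s ≤ log (2 * cosh s1) - s1 * (sinh s1 / cosh s1) / 2 -
      s1 / (2 * (sinh s1 / cosh s1)) * (sinh s / cosh s) ^ 2 := by
  have hS : 0 < sinh s1 := sinh_pos_iff.2 h1
  have hC : 0 < cosh s1 := cosh_pos s1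
  have hD : ∀ s, HasDerivAt (fun s => -(Es s + s1 / (2 * (sinh s1 / cosh s1)) *
      (sinh s / cosh s) ^ 2))
      (s / cosh s ^ 2 - s1 * cosh s1 / sinh s1 * (sinh s / cosh s ^ 3)) s := by
    intro s
    have hc : cosh s ≠ 0 := (cosh_pos s).ne'
    have h2 := ((hasDerivAt_Es s).add (((hasDerivAt_th s).pow 2).const_mul
      (s1 / (2 * (sinh s1 / cosh s1))))).neg
    refine h2.congr_deriv ?_
    rw [show (2 - 1 : ℕ) = 1 from rfl, pow_one]
    push_cast
    field_simp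
    ring
  have hmin := min_of_deriv hD h1.le (fun s hs hs' => by
    have hc : 0 < cosh s := cosh_pos s
    have h3 := tanh_slope hs hs'
    have h2 : s / cosh s ^ 2 - s1 * cosh s1 / sinh s1 * (sinh s / cosh s ^ 3) =
        (s * (sinh s1 * cosh s) - s1 * (sinh s * cosh s1)) / (sinh s1 * cosh s ^ 3) := by
      field_simp
    rw [h2]
    exact div_nonpos_of_nonpos_of_nonneg (by linarith) (by positivity)) (fun s hs => by
    have hc : 0 < cosh s := cosh_pos s
    have h3 := tanh_slope h1.le hs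
    have h2 : s / cosh s ^ 2 - s1 * cosh s1 / sinh s1 * (sinh s / cosh s ^ 3) =
        (s * (sinh s1 * cosh s) - s1 * (sinh s * cosh s1)) / (sinh s1 * cosh s ^ 3) := by
      field_simp
    rw [h2]
    exact div_nonneg (by linarith) (by positivity)) hs
  have h3 : Es s1 + s1 / (2 * (sinh s1 / cosh s1)) * (sinh s1 / cosh s1) ^ 2 =
      log (2 * cosh s1) - s1 * (sinh s1 / cosh s1) / 2 := by
    unfold Es
    field_simp
    ring
  have h5 : -(Es s1 + s1 / (2 * (sinh s1 / cosh s1)) * (sinh s1 / cosh s1) ^ 2) ≤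
    -(Es s + s1 / (2 * (sinh s1 / cosh s1)) * (sinh s / cosh s) ^ 2) := hmin
  linarith

open Pool.Agent.W483.FB in
lemma H2_th (s : ℝ) : H2 (1 / 2 - 1 / 2 * tanh s) * log 2 = Es s := by
  have hc : 0 < cosh s := cosh_pos s
  have hlog2 : log 2 ≠ 0 := (log_pos one_lt_two).ne'
  have h1 : cosh s - sinh s = exp (-s) := by rw [cosh_sub_sinh]
  have h2 : cosh s + sinh s = exp s := by rw [cosh_add_sinh]
  have hq : 1 / 2 - 1 / 2 * tanh s = exp (-s) / (2 * cosh s) := by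
    rw [tanh_eq_sinh_div_cosh, ← h1]
    field_simp
  have hq' : 1 - exp (-s) / (2 * cosh s) = exp s / (2 * cosh s) := by
    rw [← h1, ← h2]
    field_simp
    ring
  have hl1 : log (exp (-s) / (2 * cosh s)) = -s - log (2 * cosh s) := by
    rw [log_div (exp_pos _).ne' (by positivity), log_exp]
  have hl2 : log (exp s / (2 * cosh s)) = s - log (2 * cosh s) := by
    rw [log_div (exp_pos _).ne' (by positivity), log_exp]
  unfold H2 Es
  rw [hq, hq', logb, logb, hl1, hl2, ← h1, ← h2]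
  field_simp
  ring

open Pool.Agent.W483.FB in
lemma h_eq {x : ℝ} (hx0 : 0 < x) (hx1 : x ≤ 1) :
    ∃ s, 0 ≤ s ∧ (sinh s / cosh s) ^ 2 = 1 - x ∧ 1 / cosh s = √x ∧ h x * log 2 = Es s := by
  have h0 : 0 ≤ 1 - x := by linarith
  have ht : √(1 - x) ∈ Ioo (-1 : ℝ) 1 := by
    constructor
    · have := sqrt_nonneg (1 - x); linarith
    · rw [sqrt_lt' one_pos]
      linarith
  refine ⟨artanh √(1 - x), artanh_nonneg (sqrt_nonneg _), ?_, ?_, ?_⟩
  · rw [← tanh_eq_sinh_div_cosh, tanh_artanh ht, sq_sqrt h0]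
  · rw [cosh_artanh ht, sq_sqrt h0, one_div_one_div]
    congr 1
    ring
  · rw [← H2_th, tanh_artanh ht]
    rfl

open Pool.Agent.W483.FB in
/-- lower bounds of `h (u ^ 2)` by tangent lines -/
lemma psi_ge {ρ u : ℝ} (hρ : 1 < ρ) (hu0 : 0 < u) (hu1 : u ≤ 1) :
    2 * log ρ / (ρ - ρ⁻¹) * u + (log (ρ + ρ⁻¹) - log ρ * ((ρ + ρ⁻¹) / (ρ - ρ⁻¹))) ≤
      h (u ^ 2) * log 2 := by
  have hρ0 : 0 < ρ := by linarith
  have hρi : ρ⁻¹ < ρ := (inv_lt_one_of_one_lt₀ hρ).trans hρ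
  obtain ⟨s, hs, -, h2, h3⟩ := h_eq (x := u ^ 2) (by positivity) (by nlinarith)
  have h4 := T1 (s0 := log ρ) (log_pos hρ) hs
  rw [sqrt_sq hu0.le] at h2
  rw [h3]
  rw [h2, sinh_log hρ0, cosh_log hρ0] at h4
  have e1 : 2 * ((ρ + ρ⁻¹) / 2) = ρ + ρ⁻¹ := by ring
  rw [e1] at h4
  have e2 : (ρ + ρ⁻¹) / 2 / ((ρ - ρ⁻¹) / 2) = (ρ + ρ⁻¹) / (ρ - ρ⁻¹) :=
    div_div_div_cancel_right₀ two_ne_zero _ _
  have e3 : log ρ / ((ρ - ρ⁻¹) / 2) = 2 * log ρ / (ρ - ρ⁻¹) := by
    rw [div_div_eq_mul_div, mul_comm]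
  rw [e2, e3] at h4
  exact h4

open Pool.Agent.W483.FB in
/-- upper bounds of `h x` by tangent lines -/
lemma phi_le {ρ x : ℝ} (hρ : 1 < ρ) (hx0 : 0 < x) (hx1 : x ≤ 1) :
    h x * log 2 ≤ log (ρ + ρ⁻¹) - log ρ * ((ρ - ρ⁻¹) / (ρ + ρ⁻¹)) / 2 -
      log ρ / (2 * ((ρ - ρ⁻¹) / (ρ + ρ⁻¹))) * (1 - x) := by
  have hρ0 : 0 < ρ := by linarith
  have hρi : ρ⁻¹ < ρ := (inv_lt_one_of_one_lt₀ hρ).trans hρ
  obtain ⟨s, hs, h2, -, h3⟩ := h_eq hx0 hx1
  have h4 := T2 (s1 := log ρ) (log_pos hρ) hs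
  rw [h3]
  rw [h2, sinh_log hρ0, cosh_log hρ0] at h4
  have e1 : 2 * ((ρ + ρ⁻¹) / 2) = ρ + ρ⁻¹ := by ring
  have e2 : (ρ - ρ⁻¹) / 2 / ((ρ + ρ⁻¹) / 2) = (ρ - ρ⁻¹) / (ρ + ρ⁻¹) :=
    div_div_div_cancel_right₀ two_ne_zero _ _
  rw [e1, e2] at h4
  exact h4

end Pool.Agent.W382.FB.Num
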